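import Pool.Agent.H22.WL.Disc
import Pool.Agent.H14.V.FourW

/-!
# WL Proj: complements in surfaces with nonpositively curved pseudo-lengths, in the projective space
-/

set_option autoImplicit false

open Topology Filter MvPolynomial Metric

noncomputable section

namespace Pool.Agent.H22.WL

open Pool.Agent.H17 (PN VanishesAt HolomorphicInto ZariskiClosedIn puncturedDisc)
open Pool.Agent.H62.FC (Homog)
open Pool.Agent.H62.SA (locVar OnBd IsProperMap)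
open Pool.Agent.H17BP (Surface)
open Pool.Agent.H17LG.Variety (FunField IsLogGeneralType)
open Pool.Agent.H13.SM (conTan cone)
open Pool.Agent.H36.BP (EN fs wd isCone_transport wd_sq wd_nonneg analyticAt_ofLp)
open Pool.Agent.H14.PP (IsCone)
open Pool.Agent.H14.KB (KobayashiHyperbolicModulo)
open Pool.Agent.H13.OT (OrderTwo)
open Pool.Agent.H17EF (projVar coneE LE prP prP_injective mk_mem_projVar)
open Pool.Agent.H62.EF (pr Charts)
open Pool.Agent.H14.V (IsLift brodyCurves IsNull isLift_mk)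
open Pool.Agent.H22.W (PseudoLength)

variable {N : ℕ} {P : Ideal (MvPolynomial (Fin (N + 1)) ℂ)} {s : ℕ} {G : Fin s → MvPolynomial (Fin (N + 1)) ℂ} {d : Fin s → ℕ}

/-- Let `f` be an entire curve in `X` with `|f'| ≤ 1`, which for every `i` is in `{G i = 0}` or avoids `{G i = 0}`.  If `f` is in
`{G i = 0}` for some `i ∈ I`, or if `n(f') = 0`, then `f` is constant. -/
def NoCurves (n : PseudoLength (coneE P)) (G : Fin s → MvPolynomial (Fin (N + 1)) ℂ) (I : Finset (Fin s)) : Prop :=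
  ∀ f ∈ brodyCurves (projVar P) 1, (∀ i, (∀ z, VanishesAt (G i) (f z)) ∨ ∀ z, ¬ VanishesAt (G i) (f z)) →
    ((∃ i ∈ I, ∀ z, VanishesAt (G i) (f z)) ∨ IsNull n f) → ∀ z w, f z = f w

theorem vanishesAt_lift {F : ℂ → EN N} {f : ℂ → PN N} (hF : IsLift F f) {Q : MvPolynomial (Fin (N + 1)) ℂ} {m : ℕ} (hQ : Q.IsHomogeneous m)
    (z : ℂ) : VanishesAt Q (f z) ↔ eval (F z).ofLp Q = 0 := by
  obtain ⟨h, h'⟩ := hF.2 z
  rw [h', Pool.Agent.H17.vanishesAt_mk_iff hQ]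

/-- the form on `EN N` -/
def evF (Q : MvPolynomial (Fin (N + 1)) ℂ) (x : EN N) : ℂ := eval x.ofLp Q

theorem evF_diff (Q : MvPolynomial (Fin (N + 1)) ℂ) : Differentiable ℂ (evF Q) := by
  intro x
  have h := AnalyticAt.aeval_mvPolynomial (𝕜 := ℂ) (f := fun y : EN N => y.ofLp) (z := x) (fun i =>
    (EuclideanSpace.proj (𝕜 := ℂ) i : EN N →L[ℂ] ℂ).analyticAt x) Q
  have h2 : AnalyticAt ℂ (fun y : EN N => eval y.ofLp Q) x := by simpa [MvPolynomial.aeval_eq_eval] using h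
  exact h2.differentiableAt

theorem evF_smul {Q : MvPolynomial (Fin (N + 1)) ℂ} {m : ℕ} (hQ : Q.IsHomogeneous m) (c : ℂ) (x : EN N) :
    evF Q (c • x) = c ^ m * evF Q x := by
  unfold evF
  exact Pool.Agent.H17.eval_smul_of_isHomogeneous hQ c x.ofLp

theorem noBrodyL_of (hP : Homog P) (hG : ∀ i, (G i).IsHomogeneous (d i)) {n : PseudoLength (coneE P)} {I : Finset (Fin s)}
    (h : NoCurves n G I) : NoBrodyL n (fun i => evF (G i)) I := by
  intro F hF hFX hF1 hdich hor z w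
  have h0 : ∀ z, (F z).ofLp ≠ 0 := fun z => (hFX z).1
  have hl := isLift_mk hF h0
  have hv := fun i z => vanishesAt_lift hl (hG i) z
  have h1 := h _ ⟨fun z => (hl.mem_iff hP z).2 (hFX z), F, hl, hF1⟩ (fun i => by
    rcases hdich i with h2 | h2
    · exact Or.inl fun z => (hv i z).2 (h2 z)
    · exact Or.inr fun z h3 => h2 z ((hv i z).1 h3)) (by
    rcases hor with ⟨i, hi, h2⟩ | h2
    · exact Or.inl ⟨i, hi, fun z => (hv i z).2 (h2 z)⟩
    · exact Or.inr ⟨F, hl, h2⟩) z w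
  rw [Projectivization.mk_eq_mk_iff'] at h1
  obtain ⟨a, ha⟩ := h1
  exact ⟨a, WithLp.ofLp_injective 2 ha.symm⟩

/-- the complement of the hypersurfaces `{G i = 0}` -/
theorem mem_locVar_prod {x : PN N} : x ∈ locVar P (fun _ : Fin 1 => ∏ i, G i) ↔ x ∈ projVar P ∧ ∀ i, ¬ VanishesAt (G i) x := by
  have h1 : VanishesAt (∏ i, G i) x ↔ ∃ i, VanishesAt (G i) x := by
    unfold VanishesAt
    rw [map_prod, Finset.prod_eq_zero_iff]
    exact ⟨fun ⟨i, _, h⟩ => ⟨i, h⟩, fun ⟨i, h⟩ => ⟨i, Finset.mem_univ i, h⟩⟩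
  constructor
  · rintro ⟨h2, m, h3⟩
    exact ⟨h2, fun i h4 => h3 (h1.2 ⟨i, h4⟩)⟩
  · rintro ⟨h2, h3⟩
    refine ⟨h2, 0, fun h4 => ?_⟩
    obtain ⟨i, h5⟩ := h1.1 h4
    exact h3 i h5

/-- the Fubini-Study length bounds the distance to the line -/
theorem dist_line {x v : EN N} (hx : x ≠ 0) : ∃ a : ℂ, ‖v - a • x‖ = fs x v * ‖x‖ := by
  have hn : ‖x‖ ≠ 0 := norm_ne_zero_iff.2 hx
  obtain ⟨a, ha⟩ : ∃ a : ℂ, a = inner ℂ x v / inner ℂ x x := ⟨_, rfl⟩
  have hxx : (inner ℂ x x : ℂ) ≠ 0 := inner_self_ne_zero.2 hx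
  have horth : inner ℂ x (v - a • x) = (0 : ℂ) := by
    rw [inner_sub_right, inner_smul_right, ha, div_mul_cancel₀ _ hxx, sub_self]
  refine ⟨a, ?_⟩
  have h1 : wd x v = ‖x‖ * ‖v - a • x‖ := by
    have h2 : wd x v = wd x (v - a • x) := by
      have h3 := Pool.Agent.H36.BP.wd_inv x (v - a • x) 1 a
      rw [one_smul, one_smul, sub_add_cancel, norm_one, one_pow, one_mul] at h3
      exact h3
    rw [h2]
    have h4 := wd_sq x (v - a • x)
    rw [horth, norm_zero, zero_pow two_ne_zero, sub_zero, ← mul_pow] at h4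
    exact (pow_left_inj₀ (wd_nonneg _ _) (by positivity) two_ne_zero).1 h4
  unfold fs
  rw [h1]
  field_simp

theorem norm_ofLp_le (x : EN N) : ‖x.ofLp‖ ≤ ‖x‖ := by
  refine (pi_norm_le_iff_of_nonneg (norm_nonneg _)).2 fun i => ?_
  exact PiLp.norm_apply_le x i

section

variable [P.IsPrime] {z : Fin 2 → FunField P}

/-- **The complement is hyperbolically embedded.** -/
theorem kobayashi_complement (hP : Homog P) (hz : IsTranscendenceBasis ℂ z)
    (hsm : ∀ y : Fin (N + 1) → ℂ, y ≠ 0 → (∀ Q ∈ P, eval y Q = 0) → Module.finrank ℂ (conTan P y) ≤ 3)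
    (hG : ∀ i, (G i).IsHomogeneous (d i)) (hd : ∑ i, d i ≠ 0) {n : PseudoLength (coneE P)}
    (h : NoCurves n G Finset.univ) : KobayashiHyperbolicModulo (locVar P fun _ : Fin 1 => ∏ i, G i) 1 0 := by
  have hS : Surface (cone P) := Pool.Agent.H13.SM.surface_cone hP hz fun y hy => hsm y hy.1 hy.2
  have hX : IsCone (coneE P) := isCone_transport (LE N) hS
  have hch : Charts (coneE P) := Pool.Agent.H17EF.charts hS
  obtain ⟨C, hC, hemb⟩ := embedded hX hch n (fun i => evF_diff (G i)) (fun i => evF_smul (hG i)) hd (noBrodyL_of hP hG h)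
  refine ⟨0, 2 * C * Real.sqrt (N + 1), fun f F hf hfU hF hFf => ?_⟩
  -- a lift
  obtain ⟨F₁, hF1d, hF1f⟩ := Pool.Agent.H36.BP.lift_disc hf (r := 1 / 2) (by norm_num) (by norm_num)
  have h0mem : (0 : ℂ) ∈ ball (0 : ℂ) (1 / 2) := mem_ball_self (by norm_num)
  have hhalf : ∀ z ∈ ball (0 : ℂ) 1, 2⁻¹ * z ∈ ball (0 : ℂ) (1 / 2) := by
    intro z hz
    rw [mem_ball_zero_iff] at hz ⊢
    rw [norm_mul, norm_inv, Complex.norm_ofNat]
    linarith
  have hF1X : ∀ z ∈ ball (0 : ℂ) (1 / 2), F₁ z ∈ coneE P ∧ ∀ i, evF (G i) (F₁ z) ≠ 0 := by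
    intro z hz
    obtain ⟨h1, h2⟩ := hF1f z hz
    obtain ⟨h3, h4⟩ := mem_locVar_prod.1 (hfU z (ball_subset_ball (by norm_num) hz))
    rw [h2] at h3 h4
    refine ⟨(mk_mem_projVar hP h1).1 h3, fun i h5 => h4 i ?_⟩
    rw [Pool.Agent.H17.vanishesAt_mk_iff (hG i)]
    exact h5
  have hd1 : DifferentiableOn ℂ (fun z => F₁ (2⁻¹ * z)) (ball 0 1) := by
    intro z hz
    have h1 : DifferentiableAt ℂ F₁ (2⁻¹ * z) := hF1d.differentiableAt (isOpen_ball.mem_nhds (hhalf z hz))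
    exact (h1.comp z (differentiableAt_id.const_mul _)).differentiableWithinAt
  have hb := hemb _ hd1 (fun z hz => (hF1X _ (hhalf z hz)).1) fun i z hz => (hF1X _ (hhalf z hz)).2 i
  have hF10 : DifferentiableAt ℂ F₁ 0 := hF1d.differentiableAt (isOpen_ball.mem_nhds h0mem)
  have hder : deriv (fun z => F₁ (2⁻¹ * z)) 0 = (2⁻¹ : ℂ) • deriv F₁ 0 := by
    have h3 : HasDerivAt (fun ζ : ℂ => 2⁻¹ * ζ) (2⁻¹ : ℂ) 0 := by
      simpa using (hasDerivAt_id (0 : ℂ)).const_mul (2⁻¹ : ℂ)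
    have h4 : HasDerivAt F₁ (deriv F₁ 0) (2⁻¹ * 0) := by simpa using hF10.hasDerivAt
    exact (h4.scomp (0 : ℂ) h3).deriv
  simp only [mul_zero] at hb
  rw [hder, Pool.Agent.H36.BP.fs_smul_right, norm_inv, Complex.norm_ofNat] at hb
  have hfs1 : fs (F₁ 0) (deriv F₁ 0) ≤ 2 * C := by linarith
  -- comparison of the lifts
  have hne1 : F₁ 0 ≠ 0 := hX.ne_zero (hF1X 0 h0mem).1
  obtain ⟨j, hj⟩ : ∃ j, (F₁ 0) j ≠ 0 := by
    by_contra hcon
    push Not at hcon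
    exact hne1 (by ext i; exact hcon i)
  have hF1a : AnalyticAt ℂ F₁ 0 := hF1d.analyticAt (isOpen_ball.mem_nhds h0mem)
  have hc1 : AnalyticAt ℂ (fun w => F₁ w j) 0 := analyticAt_pi_iff.mp (analyticAt_ofLp hF1a) j
  have hc2 : AnalyticAt ℂ (fun w => F w j) 0 := analyticAt_pi_iff.mp hF j
  obtain ⟨k, hk⟩ : ∃ k : ℂ → ℂ, k = fun w => F w j / F₁ w j := ⟨_, rfl⟩
  have hka : AnalyticAt ℂ k 0 := by rw [hk]; exact hc2.div hc1 hj
  have hrel : ∀ᶠ w in 𝓝 (0 : ℂ), (WithLp.toLp 2 (F w) : EN N) = k w • F₁ w ∧ k w ≠ 0 := by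
    filter_upwards [hFf, isOpen_ball.mem_nhds h0mem, hc1.continuousAt.eventually_ne hj] with w h1 h2 h3
    obtain ⟨h4, h5⟩ := h1
    obtain ⟨h6, h7⟩ := hF1f w h2
    rw [h5, Projectivization.mk_eq_mk_iff'] at h7
    obtain ⟨a, ha⟩ := h7
    have ha' : ∀ i, a * F₁ w i = F w i := fun i => congrFun ha i
    have hka' : k w = a := by
      rw [hk]
      simp only
      rw [← ha' j]
      field_simp
    refine ⟨?_, ?_⟩
    · rw [hka']
      ext i
      exact (ha' i).symm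
    · rw [hka']
      rintro rfl
      apply h4
      funext i
      rw [← ha' i, zero_mul]
      rfl
  have hdF : deriv (fun w => (WithLp.toLp 2 (F w) : EN N)) 0 = k 0 • deriv F₁ 0 + deriv k 0 • F₁ 0 := by
    have h1 : (fun w => (WithLp.toLp 2 (F w) : EN N)) =ᶠ[𝓝 0] fun w => k w • F₁ w := hrel.mono fun w hw => hw.1
    rw [h1.deriv_eq]
    exact (hka.differentiableAt.hasDerivAt.smul hF10.hasDerivAt).deriv
  have hdF2 : deriv (fun w => (WithLp.toLp 2 (F w) : EN N)) 0 = WithLp.toLp 2 (deriv F 0) := by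
    have h1 : HasDerivAt F (deriv F 0) 0 := hF.differentiableAt.hasDerivAt
    exact ((LE N : (Fin (N + 1) → ℂ) →L[ℂ] EN N).hasFDerivAt.comp_hasDerivAt (0 : ℂ) h1).deriv
  obtain ⟨hk0, hk1⟩ := hrel.self_of_nhds
  obtain ⟨a, ha⟩ := dist_line (x := (WithLp.toLp 2 (F 0) : EN N)) (v := WithLp.toLp 2 (deriv F 0)) (by
    rw [hk0]
    exact smul_ne_zero hk1 hne1)
  have hfs2 : fs (WithLp.toLp 2 (F 0) : EN N) (WithLp.toLp 2 (deriv F 0)) ≤ 2 * C := by
    rw [← hdF2, hdF, hk0, Pool.Agent.H36.BP.fs_inv hne1 _ hk1]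
    exact hfs1
  refine ⟨a, ?_⟩
  rw [pow_zero, one_mul]
  have h1 : ‖deriv F 0 - a • F 0‖ ≤ ‖(WithLp.toLp 2 (deriv F 0) : EN N) - a • WithLp.toLp 2 (F 0)‖ :=
    norm_ofLp_le ((WithLp.toLp 2 (deriv F 0) : EN N) - a • WithLp.toLp 2 (F 0))
  have h2 : ‖(WithLp.toLp 2 (F 0) : EN N)‖ ≤ Real.sqrt (N + 1) * ‖F 0‖ := Pool.Agent.H14.V.norm_le_ofLp (WithLp.toLp 2 (F 0) : EN N)
  calc ‖deriv F 0 - a • F 0‖ ≤ _ := h1
    _ = fs (WithLp.toLp 2 (F 0) : EN N) (WithLp.toLp 2 (deriv F 0)) * ‖(WithLp.toLp 2 (F 0) : EN N)‖ := ha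
    _ ≤ (2 * C) * (Real.sqrt (N + 1) * ‖F 0‖) := mul_le_mul hfs2 h2 (norm_nonneg _) (by positivity)
    _ = 2 * C * Real.sqrt (N + 1) * ‖F 0‖ := by ring

theorem const_of_kobayashi {U : Set (PN N)} (h : KobayashiHyperbolicModulo U 1 0) {f : ℂ → PN N} (hf : HolomorphicInto f Set.univ)
    (hfU : ∀ z, f z ∈ U) (z w : ℂ) : f z = f w := by
  by_contra hne
  have h1 := Pool.Agent.H14.KB.brody_of_kobayashi (isHomogeneous_one _ _) h hf hfU ⟨z, w, hne⟩ z
  unfold VanishesAt at h1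
  rw [map_one] at h1
  exact one_ne_zero h1

omit [P.IsPrime] in
theorem prod_hom (hG : ∀ i, (G i).IsHomogeneous (d i)) : (∏ i, G i).IsHomogeneous (∑ i, d i) :=
  IsHomogeneous.prod Finset.univ G d fun i _ => hG i

/-- **Entire curves of order two in the complement are constant.** -/
theorem orderTwo_complement (hP : Homog P) (hz : IsTranscendenceBasis ℂ z)
    (hsm : ∀ y : Fin (N + 1) → ℂ, y ≠ 0 → (∀ Q ∈ P, eval y Q = 0) → Module.finrank ℂ (conTan P y) ≤ 3)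
    (hG : ∀ i, (G i).IsHomogeneous (d i)) {I : Finset (Fin s)} (hd : ∑ i ∈ I, d i ≠ 0) {n : PseudoLength (coneE P)}
    (h : NoCurves n G I) {f : ℂ → PN N} (hfo : OrderTwo f)
    (hfU : ∀ z, f z ∈ locVar P fun _ : Fin 1 => ∏ i, G i) (z w : ℂ) : f z = f w := by
  have hS : Surface (cone P) := Pool.Agent.H13.SM.surface_cone hP hz fun y hy => hsm y hy.1 hy.2
  have hX : IsCone (coneE P) := isCone_transport (LE N) hS
  have hch : Charts (coneE P) := Pool.Agent.H17EF.charts hS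
  obtain ⟨F₀, A, hF₀, hFf, hA⟩ := hfo
  obtain ⟨A', hA'⟩ := Pool.Agent.H14.V.average_toLp hF₀ (fun z => (hFf z).1) hA
  have hl : IsLift (fun z => (WithLp.toLp 2 (F₀ z) : EN N)) f := by
    refine ⟨?_, fun z => hFf z⟩
    exact (LE N).differentiable.comp hF₀
  have h0 := no_orderTwo hX hch n (fun i => evF_diff (G i)) (fun i => evF_smul (hG i)) hd (noBrodyL_of hP hG h) hl.1
    (fun z => (hl.mem_iff hP z).1 (mem_locVar_prod.1 (hfU z)).1)
    (fun i z h1 => (mem_locVar_prod.1 (hfU z)).2 i ((vanishesAt_lift hl (hG i) z).2 h1)) ⟨A', hA'⟩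
  apply prP_injective
  rw [hl.prP, hl.prP]
  exact Pool.Agent.H14.V.pr_const hl.1 (fun z => hl.ne_zero z) h0 z w

/-- **The four properties.** -/
theorem four_complement (hP : Homog P) (hz : IsTranscendenceBasis ℂ z)
    (hsm : ∀ y : Fin (N + 1) → ℂ, y ≠ 0 → (∀ Q ∈ P, eval y Q = 0) → Module.finrank ℂ (conTan P y) ≤ 3)
    (hG : ∀ i, (G i).IsHomogeneous (d i)) {I : Finset (Fin s)} (hd : ∑ i ∈ I, d i ≠ 0) (hGP : ∀ i, G i ∉ P)
    (hgt : IsLogGeneralType (K := FunField P) (k := 2) (OnBd P fun _ : Fin 1 => ∏ i, G i))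
    {n : PseudoLength (coneE P)} (h : NoCurves n G I) :
    (∅ : Set (PN N)) ≠ locVar P (fun _ : Fin 1 => ∏ i, G i) ∧
    (∀ f : ℂ → PN N, HolomorphicInto f puncturedDisc → (∀ z ∈ puncturedDisc, f z ∈ locVar P fun _ : Fin 1 => ∏ i, G i) →
      ∃ g : ℂ → PN N, HolomorphicInto g (Metric.ball 0 1) ∧ ∀ z ∈ puncturedDisc, g z = f z) ∧
    (∀ f : ℂ → PN N, HolomorphicInto f Set.univ → (∀ z, f z ∈ locVar P fun _ : Fin 1 => ∏ i, G i) → ∀ z w, f z = f w) ∧
    (∀ (Q : Ideal (MvPolynomial (Fin (N + 1)) ℂ)) [Q.IsPrime], Homog Q → P ≤ Q → (locVar Q fun _ : Fin 1 => ∏ i, G i).Nonempty →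
      ∀ w, 1 ≤ w → (∃ z : Fin w → FunField Q, IsTranscendenceBasis ℂ z) →
      IsLogGeneralType (OnBd Q (fun _ : Fin 1 => ∏ i, G i) (k := w))) ∧
    ∃ (Q : MvPolynomial (Fin (N + 1)) ℂ) (D : ℕ), Q.IsHomogeneous D ∧
      (∃ x ∈ locVar P (fun _ : Fin 1 => ∏ i, G i), ¬ VanishesAt Q x) ∧
      KobayashiHyperbolicModulo (locVar P fun _ : Fin 1 => ∏ i, G i) Q D := by
  have hhom : (∏ i, G i).IsHomogeneous (∑ i, d i) := prod_hom hG
  have hdu : ∑ i, d i ≠ 0 := fun h1 => hd (Nat.le_zero.1 (h1 ▸ Finset.sum_le_sum_of_subset (Finset.subset_univ I)))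
  have hproper : IsProperMap P (fun _ : Fin 1 => ∏ i, G i)
      (fun _ => (Fin.cons (∏ i, G i) (fun j : Fin (N + 1) => X j ^ (∑ i, d i)) : Fin (N + 1 + 1) → MvPolynomial (Fin (N + 1)) ℂ))
      (fun _ => ∑ i, d i) := by
    refine ⟨fun _ j => ?_, fun _ => rfl, fun m m' j => ?_, fun x _ => ?_⟩
    · refine Fin.cases ?_ (fun j => ?_) j
      · exact hhom
      · have h1 := (isHomogeneous_X ℂ j).pow (∑ i, d i)
        rw [one_mul] at h1
        exact h1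
    · rw [sub_self]
      exact P.zero_mem
    · obtain ⟨j, hj⟩ : ∃ j, x.rep j ≠ 0 := by
        by_contra hcon
        push Not at hcon
        exact x.rep_nonzero (funext hcon)
      refine ⟨0, j.succ, fun h1 => hj ?_⟩
      unfold VanishesAt at h1
      rw [Fin.cons_succ, map_pow, eval_X] at h1
      exact pow_eq_zero_iff hdu |>.1 h1
  have hX : ∃ i, (X i : MvPolynomial (Fin (N + 1)) ℂ) ∉ P := Pool.Agent.H62.FC.exists_X_notMem (r := 2) (by norm_num) ⟨z, hz⟩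
  have hprodP : ∏ i, G i ∉ P := by
    intro h1
    obtain ⟨i, -, h2⟩ := (Ideal.IsPrime.prod_mem_iff (p := P)).1 h1
    exact hGP i h2
  obtain ⟨x, hx, hxG⟩ := Pool.Agent.H17EF.exists_point hP hX hprodP hhom
  have hxU : x ∈ locVar P (fun _ : Fin 1 => ∏ i, G i) := ⟨hx, 0, hxG⟩
  have hne : (∅ : Set (PN N)) ≠ locVar P (fun _ : Fin 1 => ∏ i, G i) := fun h1 => by
    rw [← h1] at hxU
    exact hxU
  have hcl : ZariskiClosedIn (locVar P (fun _ : Fin 1 => ∏ i, G i)) (∅ : Set (PN N)) := by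
    refine ⟨{1}, fun R hR => ⟨0, by rw [Set.mem_singleton_iff.1 hR]; exact isHomogeneous_one _ _⟩, ?_⟩
    ext y
    constructor
    · exact fun h1 => absurd h1 (Set.notMem_empty y)
    · rintro ⟨-, h1⟩
      have h2 := h1 1 rfl
      unfold VanishesAt at h2
      rw [map_one] at h2
      exact absurd h2 one_ne_zero
  obtain ⟨hbr', hpic, Q, D, hQ, hQx, -, hkob⟩ := Pool.Agent.H62.SA.proper_main hP hz hsm hproper hgt hcl hne fun f _ hfo hfU ⟨z, w, hzw⟩ =>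
    absurd (orderTwo_complement hP hz hsm hG hd h hfo hfU z w) hzw
  have hbr : ∀ f : ℂ → PN N, HolomorphicInto f Set.univ → (∀ z, f z ∈ locVar P fun _ : Fin 1 => ∏ i, G i) → ∀ z w, f z = f w := by
    intro f hf hfU z w
    by_contra hzw
    exact hbr' f hf hfU ⟨z, w, hzw⟩ z
  refine ⟨hne, fun f hf hfU => hpic f hf hfU ⟨1 / 2, ?_, fun h1 => h1⟩, hbr, ?_, Q, D, hQ, hQx, hkob⟩
  · refine ⟨?_, ?_⟩
    · rw [mem_ball_zero_iff, norm_div, norm_one, Complex.norm_ofNat]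
      norm_num
    · simp
  · intro Q _ hQ hPQ ⟨y, hy⟩ w hw hz'
    exact Pool.Agent.H13.CV.strongly_of_brodyL P hP ⟨z, hz⟩ (G := fun _ : Fin 1 => ∏ i, G i) (fun _ => ⟨_, hhom⟩) hcl hgt
      (fun f hf hfU ⟨z, w, hzw⟩ => absurd (hbr f hf hfU z w) hzw) Q hQ hPQ (fun h1 => h1 hy) w hw hz'

end

end Pool.Agent.H22.WL
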