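import Pool.Agent.H22.WL.Zal
import Pool.Agent.H22.W.Scale
import Mathlib.Analysis.Complex.Liouville
import Mathlib.Analysis.Complex.HasPrimitives

/-!
# WL Aff: there are no curves of bounded distortion in the complement of hypersurfaces whose strata have no Brody curves

`X` is the cone of a smooth projective surface, `q i` are forms of degree `d i`, not all constant.
Let `0 < c ≤ |F'| ≤ L`, `F` in `X` without zeros of `q i (F)`.  All limits of translates of `F` are nonconstant, so they avoid `{q i = 0}`;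
so `F` stays in a compact subset of the affine variety `X - ⋃ {q i = 0}`, and is constant: contradiction.
-/

set_option autoImplicit false

open Topology Filter Metric

namespace Pool.Agent.H22.WL

open Pool.Agent.H36.BP (EN fs wd)
open Pool.Agent.H14.PP (IsCone Chart Form Tan CurveAt IsOpenPart)
open Pool.Agent.H62.EF (Charts pr limit_curves)
open Pool.Agent.H22.W (PseudoLength tan_entire)
open Pool.Agent.H5.BD (BC)

variable {N : ℕ} {X : Set (EN N)} {s : ℕ} {q : Fin s → EN N → ℂ} {d : Fin s → ℕ}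

/-- a curve with proportional values has derivative zero -/
theorem fs_zero_of_line {F : ℂ → EN N} {e : ℂ → ℂ} {v : EN N} (he : Differentiable ℂ e)
    (h : ∀ z, F z = e z • v) (z : ℂ) : fs (F z) (deriv F z) = 0 := by
  have h1 : F = fun z => e z • v := funext h
  have h2 : deriv F z = deriv e z • v := by
    rw [h1]
    exact ((he z).hasDerivAt.smul_const v).deriv
  rw [h2, h z]
  unfold fs wd
  rw [inner_smul_left, inner_smul_right, norm_smul, norm_smul, norm_mul, norm_mul, RCLike.norm_conj,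
    inner_self_eq_norm_sq_to_K]
  simp only [norm_pow, norm_algebraMap', norm_norm]
  rw [show (‖e z‖ * ‖v‖) ^ 2 * (‖deriv e z‖ * ‖v‖) ^ 2 - (‖e z‖ * (‖deriv e z‖ * ‖v‖ ^ 2)) ^ 2 = 0 by ring, Real.sqrt_zero, zero_div]

/-- nonvanishing entire functions are exponentials -/
theorem exists_exp {u : ℂ → ℂ} (hu : Differentiable ℂ u) (h0 : ∀ z, u z ≠ 0) :
    ∃ h : ℂ → ℂ, Differentiable ℂ h ∧ ∀ z, u z = Complex.exp (h z) := by
  have h1 : Differentiable ℂ (fun z => deriv u z / u z) := by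
    refine Differentiable.fun_div ?_ hu h0
    exact fun z => (hu.analyticAt z).deriv.differentiableAt
  obtain ⟨g, hg⟩ := h1.isExactOn_univ
  have hgd : ∀ z, HasDerivAt g (deriv u z / u z) z := fun z => hg z (Set.mem_univ z)
  have h2 : ∀ z, HasDerivAt (fun z => u z * Complex.exp (-g z)) 0 z := by
    intro z
    have h3 := (hu z).hasDerivAt.mul ((hgd z).neg.cexp)
    have h4 : deriv u z * Complex.exp (-g z) + u z * (Complex.exp (-g z) * -(deriv u z / u z)) = 0 := by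
      have h5 : u z * (deriv u z / u z) = deriv u z := mul_div_cancel₀ _ (h0 z)
      linear_combination (-Complex.exp (-g z)) * h5
    rw [← h4]
    exact h3
  have h3 : ∀ z, u z * Complex.exp (-g z) = u 0 * Complex.exp (-g 0) := fun z =>
    is_const_of_deriv_eq_zero (fun z => (h2 z).differentiableAt) (fun z => (h2 z).deriv) z 0
  obtain ⟨c, hc⟩ : ∃ c, c = u 0 * Complex.exp (-g 0) := ⟨_, rfl⟩
  have hc0 : c ≠ 0 := by rw [hc]; exact mul_ne_zero (h0 0) (Complex.exp_ne_zero _)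
  refine ⟨fun z => g z + Complex.log c, fun z => ((hgd z).add_const _).differentiableAt,
    fun z => ?_⟩
  rw [Complex.exp_add, Complex.exp_log hc0, hc, ← h3 z, mul_left_comm, ← Complex.exp_add,
    add_neg_cancel, Complex.exp_zero, mul_one]

/-- nonvanishing entire functions have roots -/
theorem exists_root {d : ℕ} {g : ℂ → ℂ} (hg : Differentiable ℂ g) (h0 : ∀ z, g z ≠ 0) (hd : d ≠ 0) :
    ∃ e : ℂ → ℂ, Differentiable ℂ e ∧ (∀ z, e z ≠ 0) ∧ ∀ z, e z ^ d = g z := by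
  obtain ⟨h, hh, hgh⟩ := exists_exp hg h0
  refine ⟨fun z => Complex.exp (h z / d), fun z => ((hh z).div_const _).cexp, fun z => Complex.exp_ne_zero _, fun z => ?_⟩
  rw [hgh z, ← Complex.exp_nat_mul]
  congr 1
  have : (d : ℂ) ≠ 0 := by exact_mod_cast hd
  field_simp

theorem prod_smul (hhom : ∀ i, ∀ (c : ℂ) (x : EN N), q i (c • x) = c ^ d i * q i x) (I : Finset (Fin s)) (c : ℂ) (x : EN N) :
    ∏ i ∈ I, q i (c • x) = c ^ (∑ i ∈ I, d i) * ∏ i ∈ I, q i x := by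
  rw [← Finset.prod_pow_eq_pow_sum, ← Finset.prod_mul_distrib]
  exact Finset.prod_congr rfl fun i _ => hhom i c x

theorem prod_diff (hq : ∀ i, Differentiable ℂ (q i)) (I : Finset (Fin s)) : Differentiable ℂ fun x => ∏ i ∈ I, q i x := by
  classical
  induction I using Finset.induction_on with
  | empty => simp
  | insert a t ha ih =>
    have h1 : (fun x => ∏ i ∈ insert a t, q i x) = fun x => q a x * ∏ i ∈ t, q i x := by
      funext x
      rw [Finset.prod_insert ha]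
    rw [h1]
    exact (hq a).mul ih

/-- curves of bounded distortion which avoid the hypersurfaces stay away from them -/
theorem exists_away (hX : IsCone X) {n : PseudoLength X} (hq : ∀ i, Differentiable ℂ (q i))
    (hhom : ∀ i, ∀ (c : ℂ) (x : EN N), q i (c • x) = c ^ d i * q i x)
    {I : Finset (Fin s)} (hD : NoBrodyL n q I) {c L : ℝ} (hc : 0 < c) (hL : 0 < L) :
    ∃ c₀ : ℝ, 0 < c₀ ∧ ∀ F ∈ BC X c L, (∀ i z, q i (F z) ≠ 0) → ∀ z, c₀ * ‖F z‖ ^ (∑ i ∈ I, d i) ≤ ‖∏ i ∈ I, q i (F z)‖ := by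
  by_contra hcon
  push Not at hcon
  have hbad : ∀ k : ℕ, ∃ F ∈ BC X c L, (∀ i z, q i (F z) ≠ 0) ∧
      ∃ z, ‖∏ i ∈ I, q i (F z)‖ < ((k : ℝ) + 1)⁻¹ * ‖F z‖ ^ (∑ i ∈ I, d i) := fun k => hcon _ (by positivity)
  choose F hF hFq zc hzc using hbad
  have hX0 : ∀ x ∈ X, x ≠ 0 := fun x hx h => hX.zero_notMem (h ▸ hx)
  set G : ℕ → ℂ → EN N := fun k z => F k (zc k + z) with hGdef
  have hGd : ∀ k, Differentiable ℂ (G k) := fun k => (hF k).1.comp (differentiable_id.const_add _)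
  have hGX : ∀ k z, G k z ∈ X := fun k z => (hF k).2.1 _
  have hder : ∀ k z, deriv (G k) z = deriv (F k) (zc k + z) := by
    intro k z
    rw [hGdef]
    exact deriv_comp_const_add _ _ _
  have hGfs : ∀ k z, c ≤ fs (G k z) (deriv (G k) z) ∧ fs (G k z) (deriv (G k) z) ≤ L := by
    intro k z
    rw [hder]
    exact (hF k).2.2 _
  set 𝒰 : Ultrafilter ℕ := hyperfilter ℕ with h𝒰
  have hle : (𝒰 : Filter ℕ) ≤ atTop := Nat.hyperfilter_le_atTop
  have hρ : Tendsto (fun k : ℕ => (k : ℝ) + 1) 𝒰 atTop :=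
    (tendsto_atTop_add_const_right _ _ tendsto_natCast_atTop_atTop).mono_left hle
  obtain ⟨H, hH, hHX, hpr, hfs, hloc⟩ := limit_curves hX hL 𝒰 G (fun k : ℕ => (k : ℝ) + 1) hρ
    (Eventually.of_forall fun k => ⟨(hGd k).differentiableOn, fun z hz => ⟨hGX k z, (hGfs k z).2⟩⟩)
  have hdich : ∀ i, (∀ z, q i (H z) = 0) ∨ ∀ z, q i (H z) ≠ 0 := fun i =>
    dichotomy (hq i) (hhom i) 𝒰 hρ (Eventually.of_forall fun k z _ => hFq k i _) hloc
  have hzero : ∏ i ∈ I, q i (H 0) = 0 := by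
    refine zero_of_tendsto (q := fun x => ∏ i ∈ I, q i x) (prod_diff hq I) (prod_smul hhom I) (δ := fun k : ℕ => ((k : ℝ) + 1)⁻¹) (l := (𝒰 : Filter ℕ))
      (tendsto_inv_atTop_zero.comp hρ) ?_ hloc
    refine Eventually.of_forall fun k => ?_
    have h1 := (hzc k).le
    show ‖∏ i ∈ I, q i (F k (zc k + 0))‖ ≤ ((k : ℝ) + 1)⁻¹ * ‖F k (zc k + 0)‖ ^ (∑ i ∈ I, d i)
    rwa [add_zero]
  obtain ⟨i₀, hi₀I, hi₀⟩ := Finset.prod_eq_zero_iff.1 hzero
  have hall : ∀ z, q i₀ (H z) = 0 := (hdich i₀).resolve_right fun h => h 0 hi₀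
  have hlow : ∀ z, c ≤ fs (H z) (deriv H z) := fun z => ge_of_tendsto (hfs z) (Eventually.of_forall fun k => (hGfs k z).1)
  have hup : ∀ z, fs (H z) (deriv H z) ≤ L := fun z => le_of_tendsto (hfs z) (Eventually.of_forall fun k => (hGfs k z).2)
  obtain ⟨a, ha⟩ : ∃ a : ℂ, a = ((L⁻¹ : ℝ) : ℂ) := ⟨_, rfl⟩
  have ha0 : a ≠ 0 := by
    rw [ha]
    exact_mod_cast (inv_pos.2 hL).ne'
  have han : ‖a‖ = L⁻¹ := by rw [ha, Complex.norm_real, Real.norm_of_nonneg (inv_pos.2 hL).le]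
  have hd : Differentiable ℂ (fun z : ℂ => H (a * z)) := hH.comp (differentiable_id.const_mul _)
  have hder2 : ∀ z, deriv (fun ζ : ℂ => H (a * ζ)) z = a • deriv H (a * z) := by
    intro z
    have h3 : HasDerivAt (fun ζ : ℂ => a * ζ) a z := by
      simpa using (hasDerivAt_id z).const_mul a
    exact ((hH (a * z)).hasDerivAt.scomp z h3).deriv
  have hK := hD (fun z : ℂ => H (a * z)) hd (fun z => hHX _) (fun z => by
    rw [hder2 z, Pool.Agent.H36.BP.fs_smul_right, han]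
    calc L⁻¹ * fs (H (a * z)) (deriv H (a * z)) ≤ L⁻¹ * L := mul_le_mul_of_nonneg_left (hup _) (inv_pos.2 hL).le
      _ = 1 := inv_mul_cancel₀ hL.ne') (fun i => (hdich i).imp (fun h z => h _) fun h z => h _) (Or.inl ⟨i₀, hi₀I, fun z => hall _⟩)
  have hH0 : ∀ z, H z ≠ 0 := fun z => hX0 _ (hHX z)
  obtain ⟨b, hb⟩ := Pool.Agent.H36.BP.Brody_deriv_line (hH 0) (fun z => by
    have h3 := hK (a⁻¹ * z) 0
    simp only [mul_zero] at h3
    rwa [← mul_assoc, mul_inv_cancel₀ ha0, one_mul] at h3)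
  have h3 : wd (H 0) (deriv H 0) = 0 := (Pool.Agent.H36.BP.wd_eq_zero (hH0 0)).mpr ⟨b, hb⟩
  have h4 := hlow 0
  unfold fs at h4
  rw [h3, zero_div] at h4
  linarith

/-- **No curves of bounded distortion avoid the hypersurfaces.** -/
theorem no_distortion (hX : IsCone X) {n : PseudoLength X} (hq : ∀ i, Differentiable ℂ (q i))
    (hhom : ∀ i, ∀ (c : ℂ) (x : EN N), q i (c • x) = c ^ d i * q i x)
    {I : Finset (Fin s)} (hd : ∑ i ∈ I, d i ≠ 0) (hD : NoBrodyL n q I) {c L : ℝ} (hc : 0 < c) (hL : 0 < L) {F : ℂ → EN N}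
    (hF : F ∈ BC X c L) :
    ∃ i z, q i (F z) = 0 := by
  by_contra hcon
  push Not at hcon
  obtain ⟨c₀, hc₀, haway⟩ := exists_away hX hq hhom hD hc hL
  have h1 := haway F hF hcon
  have hcon' : ∀ z, ∏ i ∈ I, q i (F z) ≠ 0 := fun z => Finset.prod_ne_zero_iff.2 fun i _ => hcon i z
  obtain ⟨e, he, he0, hed⟩ := exists_root (d := ∑ i ∈ I, d i) ((prod_diff hq I).comp hF.1) hcon' hd
  obtain ⟨G, hG⟩ : ∃ G : ℂ → EN N, G = fun z => (e z)⁻¹ • F z := ⟨_, rfl⟩
  have hGd : Differentiable ℂ G := by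
    rw [hG]
    exact (he.inv he0).smul hF.1
  have hen : ∀ z, 0 < ‖e z‖ := fun z => norm_pos_iff.2 (he0 z)
  have hbd : ∀ z, ‖G z‖ ^ (∑ i ∈ I, d i) ≤ c₀⁻¹ := by
    intro z
    have h2 := h1 z
    have h3 : ‖e z‖ ^ (∑ i ∈ I, d i) = ‖∏ i ∈ I, q i (F z)‖ := by
      rw [← norm_pow, hed z]
      rfl
    rw [hG]
    simp only
    rw [norm_smul, norm_inv, mul_pow, inv_pow, h3]
    have h4 : 0 < ‖∏ i ∈ I, q i (F z)‖ := norm_pos_iff.2 (hcon' z)
    rw [inv_mul_le_iff₀ h4, ← div_eq_mul_inv, le_div_iff₀ hc₀]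
    linarith
  have hbdd : Bornology.IsBounded (Set.range G) := by
    rw [isBounded_iff_forall_norm_le]
    refine ⟨max 1 c₀⁻¹, ?_⟩
    rintro _ ⟨z, rfl⟩
    by_contra hlt
    push Not at hlt
    have h5 : 1 ≤ ‖G z‖ := (le_max_left _ _).trans hlt.le
    have h6 : ‖G z‖ ≤ ‖G z‖ ^ (∑ i ∈ I, d i) := le_self_pow₀ h5 hd
    have h7 := hbd z
    have h8 := (le_max_right (1 : ℝ) c₀⁻¹).trans_lt hlt
    linarith
  have hconst : ∀ z, G z = G 0 := fun z => hGd.apply_eq_apply_of_bounded hbdd z 0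
  have hline : ∀ z, F z = e z • G 0 := by
    intro z
    rw [← hconst z, hG]
    simp only
    rw [smul_smul, mul_inv_cancel₀ (he0 z), one_smul]
  have h9 := (hF.2.2 0).1
  rw [fs_zero_of_line he hline] at h9
  linarith

/-- **Curves of order two which avoid the hypersurfaces are constant.** -/
theorem no_orderTwo (hX : IsCone X) (hch : Charts X) (n : PseudoLength X) (hq : ∀ i, Differentiable ℂ (q i))
    (hhom : ∀ i, ∀ (c : ℂ) (x : EN N), q i (c • x) = c ^ d i * q i x) {I : Finset (Fin s)} (hd : ∑ i ∈ I, d i ≠ 0)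
    (hD : NoBrodyL n q I)
    {F : ℂ → EN N} (hF : Differentiable ℂ F) (hFX : ∀ z, F z ∈ X) (hFq : ∀ i z, q i (F z) ≠ 0)
    (hA : ∃ A : ℝ, ∀ r : ℝ, 0 < r → Real.circleAverage (fun z => Real.log ‖F z‖) 0 r ≤ A * (1 + r ^ 2)) :
    ∀ z, fs (F z) (deriv F z) = 0 := by
  obtain ⟨L, hL, hlip⟩ := exists_lipschitz hX n hq hhom hD
  obtain ⟨c, hc, hlow⟩ := Pool.Agent.H22.W.exists_lower hX hch n one_pos
  by_contra hne
  obtain ⟨A, hA⟩ := hA
  obtain ⟨b, hb⟩ : ∃ b : ℝ, b = n.toFun (F 0) (deriv F 0) := ⟨_, rfl⟩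
  have hconst : ∀ z, n.toFun (F z) (deriv F z) = b := fun z => by
    rw [hb]
    exact Pool.Agent.H22.W.const_length hX hch n hF hFX hA z 0
  have hb0 : 0 ≤ b := by
    rw [hb]
    exact n.nonneg _ _ (tan_entire hF hFX 0)
  have hscale : ∀ a : ℂ, Differentiable ℂ (fun z => F (0 + a * z)) ∧
      ∀ z, n.toFun (F (0 + a * z)) (deriv (fun z => F (0 + a * z)) z) = ‖a‖ * b := fun a =>
    ⟨hF.comp ((differentiable_id.const_mul a).const_add 0), fun z => by rw [n.comp_affine hF hFX a 0 z, hconst]⟩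
  rcases hb0.eq_or_lt with h0 | hpos
  · apply hne
    intro z₀
    by_contra hz₀
    have hfs0 : 0 ≤ fs (F z₀) (deriv F z₀) := Pool.Agent.H36.BP.fs_nonneg _ _
    have hpos : 0 < fs (F z₀) (deriv F z₀) := lt_of_le_of_ne hfs0 (Ne.symm hz₀)
    obtain ⟨a, ha⟩ : ∃ a : ℝ, a = (L + 1) / fs (F z₀) (deriv F z₀) := ⟨_, rfl⟩
    have ha0 : 0 < a := by rw [ha]; positivity
    obtain ⟨hd', hv⟩ := hscale (a : ℂ)
    have h1 := hlip _ hd' (fun z => hFX _) (fun i z => hFq i _) (fun z => by rw [hv z, ← h0, mul_zero]; exact zero_le_one) (z₀ / a)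
    have h2 : (0 + (a : ℂ) * (z₀ / a)) = z₀ := by
      have : (a : ℂ) ≠ 0 := by exact_mod_cast ha0.ne'
      field_simp
      ring
    have h3 : HasDerivAt (fun ζ : ℂ => 0 + (a : ℂ) * ζ) (a : ℂ) (z₀ / a) := by
      simpa using ((hasDerivAt_id (z₀ / (a : ℂ))).const_mul (a : ℂ)).const_add 0
    have h4 : deriv (fun ζ => F (0 + (a : ℂ) * ζ)) (z₀ / a) = (a : ℂ) • deriv F (0 + (a : ℂ) * (z₀ / a)) :=
      ((hF (0 + (a : ℂ) * (z₀ / a))).hasDerivAt.scomp (z₀ / (a : ℂ)) h3).deriv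
    rw [h4, h2, Pool.Agent.H36.BP.fs_smul_right, Complex.norm_real, Real.norm_of_nonneg ha0.le, ha,
      div_mul_cancel₀ _ hpos.ne'] at h1
    linarith
  · obtain ⟨hd', hv⟩ := hscale ((b⁻¹ : ℝ) : ℂ)
    have hv1 : ∀ z, n.toFun (F (0 + ((b⁻¹ : ℝ) : ℂ) * z)) (deriv (fun z => F (0 + ((b⁻¹ : ℝ) : ℂ) * z)) z) = 1 := fun z => by
      rw [hv z, Complex.norm_real, Real.norm_of_nonneg (inv_pos.2 hpos).le, inv_mul_cancel₀ hpos.ne']
    have hBC : (fun z => F (0 + ((b⁻¹ : ℝ) : ℂ) * z)) ∈ BC X c L :=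
      ⟨hd', fun z => hFX _, fun z => ⟨hlow _ hd' (fun z => hFX _) hv1 z,
        hlip _ hd' (fun z => hFX _) (fun i z => hFq i _) (fun z => (hv1 z).le) z⟩⟩
    obtain ⟨i, z, hz⟩ := no_distortion hX hq hhom hd hD hc hL hBC
    exact hFq i _ hz

end Pool.Agent.H22.WL
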