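import Pool.Agent.H22.WL.Hur

/-!
# WL Cond: the condition on Brody curves
-/

set_option autoImplicit false

open Topology Filter Metric

namespace Pool.Agent.H22.WL

open Pool.Agent.H36.BP (EN fs wd)
open Pool.Agent.H14.PP (IsCone Chart Form Tan CurveAt IsOpenPart)
open Pool.Agent.H62.EF (Charts pr limit_curves rescale_fs)
open Pool.Agent.H22.W (PseudoLength tan_entire)

variable {N : ℕ} {X : Set (EN N)} {s : ℕ} {q : Fin s → EN N → ℂ} {d : Fin s → ℕ}

/-- Let `F` be an entire curve with `|F'| ≤ 1`, which for every `i` is in `{q i = 0}` or avoids `{q i = 0}`.  If `F` is in `{q i = 0}` for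
some `i ∈ I`, or if `F` has length zero, then `F` is constant. -/
def NoBrodyL {s : ℕ} (n : PseudoLength X) (q : Fin s → EN N → ℂ) (I : Finset (Fin s)) : Prop :=
  ∀ F : ℂ → EN N, Differentiable ℂ F → (∀ z, F z ∈ X) → (∀ z, fs (F z) (deriv F z) ≤ 1) →
    (∀ i, (∀ z, q i (F z) = 0) ∨ ∀ z, q i (F z) ≠ 0) →
    ((∃ i ∈ I, ∀ z, q i (F z) = 0) ∨ ∀ z, n.toFun (F z) (deriv F z) = 0) → ∀ z w, ∃ c : ℂ, F z = c • F w

end Pool.Agent.H22.WL
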