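import Pool.Agent.H22.WL.Aff

/-!
# WL Disc: the complement is hyperbolically embedded
-/

set_option autoImplicit false

open Topology Filter Metric

namespace Pool.Agent.H22.WL

open Pool.Agent.H36.BP (EN fs wd wd_cont fs_nonneg fs_smul_right)
open Pool.Agent.H14.PP (IsCone Chart Form Tan CurveAt IsOpenPart)
open Pool.Agent.H62.EF (Charts pr limit_curves)
open Pool.Agent.H22.W (PseudoLength tan_entire)
open Pool.Agent.H5.BD (BC)

variable {N : ℕ}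

/-- rescaling of a map of the unit disc (as `H62/EF/ZalA.lean`, for entire curves) -/
theorem rescale_disc {F : ℂ → EN N} (hF : DifferentiableOn ℂ F (ball 0 1)) (h0 : ∀ z ∈ ball (0 : ℂ) 1, F z ≠ 0) (n : ℕ)
    (hbig : 4 * ((n : ℝ) + 1) < fs (F 0) (deriv F 0)) :
    ∃ (z₀ : ℂ) (a : ℝ), 4 * ((n : ℝ) + 1) < a ∧ (∀ ζ ∈ ball (0 : ℂ) (n + 1), z₀ + ((a⁻¹ : ℝ) : ℂ) * ζ ∈ ball (0 : ℂ) 1) ∧
      fs (F z₀) (deriv (fun ζ => F (z₀ + ((a⁻¹ : ℝ) : ℂ) * ζ)) 0) = 1 ∧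
      ∀ ζ ∈ ball (0 : ℂ) (n + 1), fs (F (z₀ + ((a⁻¹ : ℝ) : ℂ) * ζ)) (deriv (fun ζ => F (z₀ + ((a⁻¹ : ℝ) : ℂ) * ζ)) ζ) ≤ 2 := by
  have hn : (0 : ℝ) ≤ n := Nat.cast_nonneg n
  have hFc : ContinuousOn F (ball 0 1) := hF.continuousOn
  have hF'c : ContinuousOn (deriv F) (ball 0 1) := (hF.deriv isOpen_ball).continuousOn
  have hgc : ContinuousOn (fun z : ℂ => fs (F z) (deriv F z)) (ball 0 1) := by
    unfold fs
    refine (wd_cont.comp_continuousOn (hFc.prodMk hF'c)).div (hFc.norm.pow 2) ?_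
    intro z hz
    exact pow_ne_zero 2 (norm_ne_zero_iff.mpr (h0 z hz))
  have hsub : closedBall (0 : ℂ) (1 / 2) ⊆ ball 0 1 := closedBall_subset_ball (by norm_num)
  set u : ℂ → ℝ := fun z => fs (F z) (deriv F z) * (1 / 2 - ‖z‖) with hu
  have huc : ContinuousOn u (closedBall (0 : ℂ) (1 / 2)) := (hgc.mono hsub).mul (continuous_const.sub continuous_norm).continuousOn
  obtain ⟨z₀, hz₀, hmax⟩ := (isCompact_closedBall (0 : ℂ) (1 / 2)).exists_isMaxOn ⟨0, by simp⟩ huc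
  have hz₀n : ‖z₀‖ ≤ 1 / 2 := by simpa using hz₀
  have hu0z : u 0 ≤ u z₀ := hmax (by simp : (0 : ℂ) ∈ closedBall (0 : ℂ) (1 / 2))
  have hu0 : u 0 = fs (F 0) (deriv F 0) / 2 := by simp only [hu, norm_zero]; ring
  have hm : 2 * ((n : ℝ) + 1) < u z₀ := by rw [hu0] at hu0z; linarith
  set d : ℝ := 1 / 2 - ‖z₀‖ with hd
  have hd0 : 0 ≤ d := by rw [hd]; linarith
  set a : ℝ := fs (F z₀) (deriv F z₀) with ha
  have ha0 : 0 ≤ a := fs_nonneg _ _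
  have huz : u z₀ = a * d := rfl
  have hpos : 0 < a * d := by rw [← huz]; linarith
  have hapos : 0 < a := by
    rcases ha0.lt_or_eq with h | h
    · exact h
    · rw [← h] at hpos; simp at hpos
  have hdpos : 0 < d := by
    rcases hd0.lt_or_eq with h | h
    · exact h
    · rw [← h] at hpos; simp at hpos
  have hd2 : d ≤ 1 / 2 := by rw [hd]; linarith [norm_nonneg z₀]
  have haL : 4 * ((n : ℝ) + 1) < a := by
    have h1 : a * d ≤ a * (1 / 2) := mul_le_mul_of_nonneg_left hd2 ha0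
    rw [huz] at hm
    linarith
  set φ : ℂ → ℂ := fun ζ => z₀ + ((a⁻¹ : ℝ) : ℂ) * ζ with hφ
  have hφd : ∀ ζ, HasDerivAt φ ((a⁻¹ : ℝ) : ℂ) ζ := by
    intro ζ
    have := ((hasDerivAt_id ζ).const_mul ((a⁻¹ : ℝ) : ℂ)).const_add z₀
    simpa [hφ] using this
  have hkey : ∀ ζ ∈ ball (0 : ℂ) (n + 1), ‖φ ζ‖ ≤ 1 / 2 - d / 2 := by
    intro ζ hζ
    have hζn : ‖ζ‖ < n + 1 := by simpa using hζ
    have h1 : ‖φ ζ‖ ≤ ‖z₀‖ + a⁻¹ * ‖ζ‖ := by
      calc ‖φ ζ‖ ≤ ‖z₀‖ + ‖((a⁻¹ : ℝ) : ℂ) * ζ‖ := norm_add_le _ _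
        _ = ‖z₀‖ + a⁻¹ * ‖ζ‖ := by
          rw [norm_mul, Complex.norm_real, Real.norm_of_nonneg (by positivity)]
    have h2 : a⁻¹ * ‖ζ‖ ≤ d / 2 := by
      rw [inv_mul_le_iff₀ hapos]
      rw [huz] at hm
      linarith
    have h3 : ‖z₀‖ = 1 / 2 - d := by rw [hd]; ring
    linarith
  have hball : ∀ ζ ∈ ball (0 : ℂ) (n + 1), φ ζ ∈ closedBall (0 : ℂ) (1 / 2) := by
    intro ζ hζ
    have := hkey ζ hζ
    rw [mem_closedBall_zero_iff]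
    linarith
  have h00 : (0 : ℂ) ∈ ball (0 : ℂ) (n + 1) := mem_ball_self (by linarith)
  have hder : ∀ ζ ∈ ball (0 : ℂ) (n + 1), deriv (fun ζ => F (φ ζ)) ζ = ((a⁻¹ : ℝ) : ℂ) • deriv F (φ ζ) := by
    intro ζ hζ
    have h1 : DifferentiableAt ℂ F (φ ζ) := hF.differentiableAt (isOpen_ball.mem_nhds (hsub (hball ζ hζ)))
    exact (h1.hasDerivAt.scomp ζ (hφd ζ)).deriv
  have hfs : ∀ ζ ∈ ball (0 : ℂ) (n + 1), fs (F (φ ζ)) (deriv (fun ζ => F (φ ζ)) ζ) = a⁻¹ * fs (F (φ ζ)) (deriv F (φ ζ)) := by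
    intro ζ hζ
    rw [hder ζ hζ, fs_smul_right, Complex.norm_real, Real.norm_of_nonneg (by positivity)]
  have hφ0 : φ 0 = z₀ := by simp [hφ]
  refine ⟨z₀, a, haL, fun ζ hζ => hsub (hball ζ hζ), ?_, ?_⟩
  · have h1 := hfs 0 h00
    rw [hφ0, ← ha, inv_mul_cancel₀ hapos.ne'] at h1
    exact h1
  · intro ζ hζ
    change fs (F (φ ζ)) (deriv (fun ζ => F (φ ζ)) ζ) ≤ 2
    rw [hfs ζ hζ]
    have h1 : u (φ ζ) ≤ u z₀ := hmax (hball ζ hζ)
    have h2 := hkey ζ hζ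
    have h3 : fs (F (φ ζ)) (deriv F (φ ζ)) * (1 / 2 - ‖φ ζ‖) ≤ a * d := h1
    have h4 : 0 ≤ fs (F (φ ζ)) (deriv F (φ ζ)) := fs_nonneg _ _
    have h5 : fs (F (φ ζ)) (deriv F (φ ζ)) * (d / 2) ≤ a * d :=
      le_trans (mul_le_mul_of_nonneg_left (by linarith) h4) h3
    have h6 : fs (F (φ ζ)) (deriv F (φ ζ)) ≤ 2 * a := by
      by_contra hc
      push Not at hc
      have : 2 * a * (d / 2) < fs (F (φ ζ)) (deriv F (φ ζ)) * (d / 2) := mul_lt_mul_of_pos_right hc (by linarith)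
      linarith
    rw [inv_mul_le_iff₀ hapos]
    linarith

variable {X : Set (EN N)} {s : ℕ} {q : Fin s → EN N → ℂ} {d : Fin s → ℕ}

/-- a Brody curve which satisfies the condition has derivative zero somewhere -/
theorem fs_zero_of_cond (hX : IsCone X) {H : ℂ → EN N} (hH : Differentiable ℂ H) (hHX : ∀ z, H z ∈ X) {L : ℝ} (hL : 0 < L)
    (hK : (∀ z, fs (H ((L : ℂ)⁻¹ * z)) (deriv (fun z => H ((L : ℂ)⁻¹ * z)) z) ≤ 1) →
      ∀ z w, ∃ c : ℂ, H ((L : ℂ)⁻¹ * z) = c • H ((L : ℂ)⁻¹ * w)) (hup : ∀ z, fs (H z) (deriv H z) ≤ L) :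
    fs (H 0) (deriv H 0) = 0 := by
  have hL0 : (L : ℂ) ≠ 0 := by exact_mod_cast hL.ne'
  have han : ‖(L : ℂ)⁻¹‖ = L⁻¹ := by rw [norm_inv, Complex.norm_real, Real.norm_of_nonneg hL.le]
  have hX0 : ∀ z, H z ≠ 0 := fun z h => hX.zero_notMem (h ▸ hHX z)
  have hder2 : ∀ z, deriv (fun ζ : ℂ => H ((L : ℂ)⁻¹ * ζ)) z = (L : ℂ)⁻¹ • deriv H ((L : ℂ)⁻¹ * z) := by
    intro z
    have h3 : HasDerivAt (fun ζ : ℂ => (L : ℂ)⁻¹ * ζ) (L : ℂ)⁻¹ z := by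
      simpa using (hasDerivAt_id z).const_mul (L : ℂ)⁻¹
    exact ((hH ((L : ℂ)⁻¹ * z)).hasDerivAt.scomp z h3).deriv
  have hK' := hK fun z => by
    rw [hder2 z, fs_smul_right, han]
    calc L⁻¹ * fs (H ((L : ℂ)⁻¹ * z)) (deriv H ((L : ℂ)⁻¹ * z)) ≤ L⁻¹ * L := mul_le_mul_of_nonneg_left (hup _) (inv_pos.2 hL).le
      _ = 1 := inv_mul_cancel₀ hL.ne'
  obtain ⟨b, hb⟩ := Pool.Agent.H36.BP.Brody_deriv_line (hH 0) (fun z => by
    have h3 := hK' (L * z) 0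
    simp only [mul_zero] at h3
    rwa [← mul_assoc, inv_mul_cancel₀ hL0, one_mul] at h3)
  have h3 : wd (H 0) (deriv H 0) = 0 := (Pool.Agent.H36.BP.wd_eq_zero (hX0 0)).mpr ⟨b, hb⟩
  unfold fs
  rw [h3, zero_div]

/-- **The complement of the hypersurfaces is hyperbolically embedded.** -/
theorem embedded (hX : IsCone X) (hch : Charts X) (n : PseudoLength X) (hq : ∀ i, Differentiable ℂ (q i))
    (hhom : ∀ i, ∀ (c : ℂ) (x : EN N), q i (c • x) = c ^ d i * q i x) (hd : ∑ i, d i ≠ 0) (hD : NoBrodyL n q Finset.univ) :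
    ∃ C : ℝ, 0 < C ∧ ∀ F : ℂ → EN N, DifferentiableOn ℂ F (ball 0 1) → (∀ z ∈ ball (0 : ℂ) 1, F z ∈ X) →
      (∀ i, ∀ z ∈ ball (0 : ℂ) 1, q i (F z) ≠ 0) → fs (F 0) (deriv F 0) ≤ C := by
  by_contra hcon
  push Not at hcon
  have hbig : ∀ k : ℕ, ∃ F : ℂ → EN N, DifferentiableOn ℂ F (ball 0 1) ∧ (∀ z ∈ ball (0 : ℂ) 1, F z ∈ X) ∧
      (∀ i, ∀ z ∈ ball (0 : ℂ) 1, q i (F z) ≠ 0) ∧ 4 * ((k : ℝ) + 1) < fs (F 0) (deriv F 0) := fun k => hcon _ (by positivity)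
  choose F hFd hFX hFq hF4 using hbig
  have hX0 : ∀ x ∈ X, x ≠ 0 := fun x hx h => hX.zero_notMem (h ▸ hx)
  have hresc := fun k => rescale_disc (hFd k) (fun z hz => hX0 _ (hFX k z hz)) k (hF4 k)
  choose z₀ a ha hball h1 h2 using hresc
  have ha0 : ∀ k, 0 < a k := fun k => lt_trans (by positivity) (ha k)
  set G : ℕ → ℂ → EN N := fun k ζ => F k (z₀ k + (((a k)⁻¹ : ℝ) : ℂ) * ζ) with hGdef
  have hGd : ∀ k, DifferentiableOn ℂ (G k) (ball 0 ((k : ℝ) + 1)) := by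
    intro k z hz
    have h3 : DifferentiableAt ℂ (F k) (z₀ k + (((a k)⁻¹ : ℝ) : ℂ) * z) := (hFd k).differentiableAt (isOpen_ball.mem_nhds (hball k z hz))
    exact (h3.comp z ((differentiableAt_id.const_mul _).const_add _)).differentiableWithinAt
  have hGX : ∀ k : ℕ, ∀ ζ ∈ ball (0 : ℂ) ((k : ℝ) + 1), G k ζ ∈ X := fun k ζ hζ => hFX k _ (hball k ζ hζ)
  have hG1 : ∀ k, fs (G k 0) (deriv (G k) 0) = 1 := by
    intro k
    have := h1 k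
    rw [hGdef]
    simpa only [mul_zero, add_zero] using this
  set 𝒰 : Ultrafilter ℕ := hyperfilter ℕ with h𝒰
  have hle : (𝒰 : Filter ℕ) ≤ atTop := Nat.hyperfilter_le_atTop
  have hρ : Tendsto (fun k : ℕ => (k : ℝ) + 1) 𝒰 atTop :=
    (tendsto_atTop_add_const_right _ _ tendsto_natCast_atTop_atTop).mono_left hle
  obtain ⟨H, hH, hHX, hpr, hfs, hloc⟩ := limit_curves hX (L := 2) two_pos 𝒰 G (fun k : ℕ => (k : ℝ) + 1) hρ
    (Eventually.of_forall fun k => ⟨hGd k, fun z hz => ⟨hGX k z hz, h2 k z hz⟩⟩)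
  have hdich : ∀ i, (∀ z, q i (H z) = 0) ∨ ∀ z, q i (H z) ≠ 0 := fun i =>
    dichotomy (hq i) (hhom i) 𝒰 hρ (Eventually.of_forall fun k z hz => hFq k i _ (hball k z hz)) hloc
  have hone : fs (H 0) (deriv H 0) = 1 := by
    have h3 := hfs 0
    simp only [hG1] at h3
    exact (tendsto_nhds_unique h3 tendsto_const_nhds)
  have htwo : ∀ z, fs (H z) (deriv H z) ≤ 2 := by
    intro z
    refine le_of_tendsto (hfs z) ?_
    filter_upwards [hρ.eventually_gt_atTop ‖z‖] with k hk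
    exact h2 k z (by rwa [mem_ball_zero_iff])
  -- the condition
  have hcond : ((∃ i, ∀ z, q i (H z) = 0) ∨ ∀ z, n.toFun (H z) (deriv H z) = 0) → False := by
    intro h
    have h3 := fs_zero_of_cond hX hH hHX two_pos (fun hle => hD _ (hH.comp (differentiable_id.const_mul _)) (fun z => hHX _) hle
      (fun i => (hdich i).imp (fun h z => h _) fun h z => h _) (h.imp (fun ⟨i, h⟩ => ⟨i, Finset.mem_univ i, fun z => h _⟩) fun h z => by
        have h4 := n.comp_affine hH hHX (((2 : ℝ) : ℂ)⁻¹) 0 z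
        simp only [zero_add] at h4
        show n.toFun (H ((((2 : ℝ) : ℂ)⁻¹) * z)) (deriv (fun z => H ((((2 : ℝ) : ℂ)⁻¹) * z)) z) = 0
        rw [h4, h, mul_zero])) htwo
    rw [hone] at h3
    exact one_ne_zero h3
  have hq0 : ∀ i z, q i (H z) ≠ 0 := fun i => (hdich i).resolve_left fun h => hcond (Or.inl ⟨i, h⟩)
  have hconst := Pool.Agent.H22.W.const_brody hX hch n hH hHX htwo
  have hb0 : 0 ≤ n.toFun (H 0) (deriv H 0) := n.nonneg _ _ (tan_entire hH hHX 0)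
  rcases hb0.eq_or_lt with h3 | h3
  · exact hcond (Or.inr fun z => by rw [hconst z 0, ← h3])
  · obtain ⟨c, hc, hlow⟩ := Pool.Agent.H22.W.exists_lower hX hch n h3
    obtain ⟨i, z, hz⟩ := no_distortion hX hq hhom hd hD hc two_pos (F := H)
      ⟨hH, hHX, fun z => ⟨hlow H hH hHX (fun z => hconst z 0) z, htwo z⟩⟩
    exact hq0 i z hz

end Pool.Agent.H22.WL
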