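import Pool.Agent.H22.W.Zal
import Pool.Agent.H62.Log.Hurwitz

/-!
# WL Hur: limits of curves which avoid a hypersurface

`X` is a cone, `q` is an entire function which is homogeneous of degree `d` (a form).
A limit of curves in `X` on which `q` has no zeros is in `{q = 0}` or avoids `{q = 0}`.
-/

set_option autoImplicit false

open Topology Filter Metric

namespace Pool.Agent.H22.WL

open Pool.Agent.H36.BP (EN fs wd)
open Pool.Agent.H14.PP (IsCone Tan CurveAt)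
open Pool.Agent.H22.W (PseudoLength tan_entire)
open Pool.Agent.H62.EF (Charts pr limit_curves rescale_fs)

variable {N : ℕ} {X : Set (EN N)} {q : EN N → ℂ} {d : ℕ}

/-- the data of `limit_curves` about the lifts -/
def LocLim (l : Filter ℕ) (F : ℕ → ℂ → EN N) (G : ℂ → EN N) : Prop :=
  ∀ z₀, ∃ (r : ℝ) (φ : ℕ → ℂ → EN N) (ψ : ℂ → EN N), 0 < r ∧
    (∀ᶠ n in l, DifferentiableOn ℂ (φ n) (ball z₀ r) ∧ ∀ z ∈ ball z₀ r, ∃ c : ℂ, c ≠ 0 ∧ φ n z = c • F n z) ∧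
    DifferentiableOn ℂ ψ (ball z₀ r) ∧ (∀ z ∈ ball z₀ r, ∃ c : ℂ, c ≠ 0 ∧ ψ z = c • G z) ∧
    TendstoLocallyUniformlyOn φ ψ l (ball z₀ r)

theorem q_zero_iff (hhom : ∀ (c : ℂ) (x : EN N), q (c • x) = c ^ d * q x) {c : ℂ} (hc : c ≠ 0) (x : EN N) :
    q (c • x) = 0 ↔ q x = 0 := by
  rw [hhom, mul_eq_zero]
  constructor
  · rintro (h | h)
    · exact absurd h (pow_ne_zero _ hc)
    · exact h
  · exact Or.inr

/-- **Hurwitz.** -/
theorem dichotomy (hq : Differentiable ℂ q) (hhom : ∀ (c : ℂ) (x : EN N), q (c • x) = c ^ d * q x) (𝒰 : Ultrafilter ℕ)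
    {F : ℕ → ℂ → EN N} {G : ℂ → EN N} {ρ : ℕ → ℝ} (hρ : Tendsto ρ 𝒰 atTop)
    (hF : ∀ᶠ n in (𝒰 : Filter ℕ), ∀ z ∈ ball (0 : ℂ) (ρ n), q (F n z) ≠ 0) (hlim : LocLim 𝒰 F G) :
    (∀ z, q (G z) = 0) ∨ ∀ z, q (G z) ≠ 0 := by
  have hloc : ∀ z₀ : ℂ, (∀ᶠ z in 𝓝 z₀, q (G z) = 0) ∨ ∀ᶠ z in 𝓝 z₀, q (G z) ≠ 0 := by
    intro z₀
    obtain ⟨r, φ, ψ, hr, hφ, hψ, hψG, hconv⟩ := hlim z₀
    have hnb : ball z₀ r ∈ 𝓝 z₀ := isOpen_ball.mem_nhds (mem_ball_self hr)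
    have h1 := Pool.Agent.H62.Log.hurwitz 𝒰 (φ := fun n z => q (φ n z)) (ψ := fun z => q (ψ z)) (a := z₀) (r := r)
      (hφ.mono fun n hn => hq.comp_differentiableOn hn.1) (by
        filter_upwards [hφ, hF, hρ.eventually_gt_atTop (‖z₀‖ + r)] with n hn hFn hρn z hz
        obtain ⟨c, hc, h⟩ := hn.2 z hz
        show q (φ n z) ≠ 0
        rw [h, Ne, q_zero_iff hhom hc]
        refine hFn z ?_
        rw [mem_ball_zero_iff]
        rw [mem_ball_iff_norm] at hz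
        calc ‖z‖ = ‖z₀ + (z - z₀)‖ := by rw [add_sub_cancel]
          _ ≤ ‖z₀‖ + ‖z - z₀‖ := norm_add_le _ _
          _ < ρ n := by linarith) (hq.comp_differentiableOn hψ) (by
        intro w w₀ hw₀ hw
        have h2 : Tendsto (fun n => φ n (w n)) 𝒰 (𝓝 (ψ w₀)) :=
          hconv.tendsto_comp (hψ.continuousOn w₀ hw₀) hw₀ (tendsto_nhdsWithin_iff.2 ⟨hw, hw.eventually (isOpen_ball.mem_nhds hw₀)⟩)
        exact (hq.continuous.tendsto _).comp h2)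
    rcases h1 with h1 | h1
    · left
      filter_upwards [hnb] with z hz
      obtain ⟨c, hc, h⟩ := hψG z hz
      have h2 : q (ψ z) = 0 := h1 z hz
      rwa [h, q_zero_iff hhom hc] at h2
    · right
      filter_upwards [hnb] with z hz
      obtain ⟨c, hc, h⟩ := hψG z hz
      have h2 : q (ψ z) ≠ 0 := h1 z hz
      rwa [h, Ne, q_zero_iff hhom hc] at h2
  have hcl : IsClopen {z : ℂ | q (G z) = 0} := by
    constructor
    · rw [← isOpen_compl_iff, isOpen_iff_mem_nhds]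
      intro z hz
      rcases hloc z with h | h
      · exact absurd h.self_of_nhds hz
      · exact h
    · rw [isOpen_iff_mem_nhds]
      intro z hz
      rcases hloc z with h | h
      · exact h
      · exact absurd hz h.self_of_nhds
  rcases isClopen_iff.1 hcl with h | h
  · right
    intro z hz
    have : z ∈ ({z : ℂ | q (G z) = 0}) := hz
    rw [h] at this
    exact this
  · left
    intro z
    have : z ∈ ({z : ℂ | q (G z) = 0}) := by rw [h]; exact Set.mem_univ z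
    exact this

/-- if the values of `q` tend to zero at the origin then `q` vanishes at the origin of the limit -/
theorem zero_of_tendsto (hq : Differentiable ℂ q) (hhom : ∀ (c : ℂ) (x : EN N), q (c • x) = c ^ d * q x)
    {l : Filter ℕ} [l.NeBot] {F : ℕ → ℂ → EN N} {G : ℂ → EN N} {δ : ℕ → ℝ} (hδ : Tendsto δ l (𝓝 0))
    (hF : ∀ᶠ n in l, ‖q (F n 0)‖ ≤ δ n * ‖F n 0‖ ^ d) (hlim : LocLim l F G) : q (G 0) = 0 := by
  obtain ⟨r, φ, ψ, hr, hφ, hψ, hψG, hconv⟩ := hlim 0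
  have h0 : (0 : ℂ) ∈ ball (0 : ℂ) r := mem_ball_self hr
  have h1 : Tendsto (fun n => φ n 0) l (𝓝 (ψ 0)) := hconv.tendsto_at h0
  have h2 : Tendsto (fun n => ‖q (φ n 0)‖) l (𝓝 ‖q (ψ 0)‖) := ((hq.continuous.tendsto _).comp h1).norm
  have h3 : Tendsto (fun n => δ n * ‖φ n 0‖ ^ d) l (𝓝 (0 * ‖ψ 0‖ ^ d)) := hδ.mul (h1.norm.pow d)
  rw [zero_mul] at h3
  have h4 : ‖q (ψ 0)‖ ≤ 0 := by
    refine le_of_tendsto_of_tendsto h2 h3 ?_
    filter_upwards [hφ, hF] with n hn hFn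
    obtain ⟨c, hc, h⟩ := hn.2 0 h0
    rw [h, hhom, norm_mul, norm_pow, norm_smul, mul_pow]
    calc ‖c‖ ^ d * ‖q (F n 0)‖ ≤ ‖c‖ ^ d * (δ n * ‖F n 0‖ ^ d) := mul_le_mul_of_nonneg_left hFn (by positivity)
      _ = δ n * (‖c‖ ^ d * ‖F n 0‖ ^ d) := by ring
  obtain ⟨c, hc, h⟩ := hψG 0 h0
  have h5 : q (ψ 0) = 0 := norm_le_zero_iff.1 h4
  rwa [h, q_zero_iff hhom hc] at h5

end Pool.Agent.H22.WL
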