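import Pool.Agent.H22.WL.Cond

/-!
# WL Zal: curves of bounded length which avoid hypersurfaces have bounded derivative

As `W/Zal.lean`; the limits of curves which avoid the hypersurfaces `{q i = 0}` are in `{q i = 0}` or avoid it, for every `i`.
-/

set_option autoImplicit false

open Topology Filter Metric

namespace Pool.Agent.H22.WL

open Pool.Agent.H36.BP (EN fs wd fs_smul_right)
open Pool.Agent.H14.PP (IsCone Chart Form Tan CurveAt IsOpenPart)
open Pool.Agent.H62.EF (Charts pr limit_curves rescale_fs)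
open Pool.Agent.H22.W (PseudoLength tan_entire)

variable {N : ℕ} {X : Set (EN N)} {s : ℕ} {q : Fin s → EN N → ℂ} {d : Fin s → ℕ}

/-- **Curves of bounded length which avoid the hypersurfaces have bounded derivative.** -/
theorem exists_lipschitz (hX : IsCone X) (n : PseudoLength X) (hq : ∀ i, Differentiable ℂ (q i))
    (hhom : ∀ i, ∀ (c : ℂ) (x : EN N), q i (c • x) = c ^ d i * q i x) {I : Finset (Fin s)} (hD : NoBrodyL n q I) :
    ∃ L : ℝ, 0 < L ∧ ∀ F : ℂ → EN N, Differentiable ℂ F → (∀ z, F z ∈ X) → (∀ i z, q i (F z) ≠ 0) →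
      (∀ z, n.toFun (F z) (deriv F z) ≤ 1) → ∀ z, fs (F z) (deriv F z) ≤ L := by
  by_contra hcon
  push Not at hcon
  have hbig : ∀ k : ℕ, ∃ F : ℂ → EN N, Differentiable ℂ F ∧ (∀ z, F z ∈ X) ∧ (∀ i z, q i (F z) ≠ 0) ∧ (∀ z, n.toFun (F z) (deriv F z) ≤ 1) ∧
      ∃ z, 4 * ((k : ℝ) + 1) < fs (F z) (deriv F z) := fun k => hcon _ (by positivity)
  choose F hFd hFX hFq hFn zc hzc using hbig
  have hX0 : ∀ x ∈ X, x ≠ 0 := fun x hx h => hX.zero_notMem (h ▸ hx)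
  have hresc : ∀ k : ℕ, ∃ (z₀ : ℂ) (a : ℝ), 4 * ((k : ℝ) + 1) < a ∧
      fs (F k (z₀ + zc k)) (deriv (fun ζ => F k (z₀ + ((a⁻¹ : ℝ) : ℂ) * ζ + zc k)) 0) = 1 ∧
      ∀ ζ ∈ ball (0 : ℂ) (k + 1), fs (F k (z₀ + ((a⁻¹ : ℝ) : ℂ) * ζ + zc k))
        (deriv (fun ζ => F k (z₀ + ((a⁻¹ : ℝ) : ℂ) * ζ + zc k)) ζ) ≤ 2 := by
    intro k
    have hd : Differentiable ℂ (fun z => F k (z + zc k)) := (hFd k).comp (differentiable_id.add_const _)
    refine rescale_fs hd (fun z => hX0 _ (hFX k _)) k ?_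
    rw [deriv_comp_add_const]
    simpa using hzc k
  choose z₀ a ha h1 h2 using hresc
  have ha0 : ∀ k, 0 < a k := fun k => lt_trans (by positivity) (ha k)
  have hform : ∀ k ζ, z₀ k + (((a k)⁻¹ : ℝ) : ℂ) * ζ + zc k = (z₀ k + zc k) + (((a k)⁻¹ : ℝ) : ℂ) * ζ := fun k ζ => by ring
  simp only [hform] at h1 h2
  set G : ℕ → ℂ → EN N := fun k ζ => F k ((z₀ k + zc k) + (((a k)⁻¹ : ℝ) : ℂ) * ζ) with hGdef
  have hGd : ∀ k, Differentiable ℂ (G k) := by
    intro k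
    exact (hFd k).comp ((differentiable_id.const_mul _).const_add _)
  have hGX : ∀ k ζ, G k ζ ∈ X := fun k ζ => hFX k _
  have hG1 : ∀ k, fs (G k 0) (deriv (G k) 0) = 1 := by
    intro k
    have := h1 k
    rw [hGdef]
    simpa only [mul_zero, add_zero] using this
  have hGn : ∀ k ζ, n.toFun (G k ζ) (deriv (G k) ζ) ≤ (a k)⁻¹ := by
    intro k ζ
    have h3 := n.comp_affine (hFd k) (hFX k) (((a k)⁻¹ : ℝ) : ℂ) (z₀ k + zc k) ζ
    rw [show n.toFun (G k ζ) (deriv (G k) ζ) = _ from h3, Complex.norm_real, Real.norm_of_nonneg (inv_nonneg.mpr (ha0 k).le)]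
    calc (a k)⁻¹ * _ ≤ (a k)⁻¹ * 1 := mul_le_mul_of_nonneg_left (hFn k _) (inv_nonneg.mpr (ha0 k).le)
      _ = (a k)⁻¹ := mul_one _
  have hGn0 : ∀ k ζ, 0 ≤ n.toFun (G k ζ) (deriv (G k) ζ) := fun k ζ => n.nonneg _ _ (tan_entire (hGd k) (hGX k) ζ)
  set 𝒰 : Ultrafilter ℕ := hyperfilter ℕ with h𝒰
  have hle : (𝒰 : Filter ℕ) ≤ atTop := Nat.hyperfilter_le_atTop
  have hρ : Tendsto (fun k : ℕ => (k : ℝ) + 1) 𝒰 atTop :=
    (tendsto_atTop_add_const_right _ _ tendsto_natCast_atTop_atTop).mono_left hle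
  have hainv : Tendsto (fun k => (a k)⁻¹) 𝒰 (𝓝 0) := by
    have h3 : Tendsto a 𝒰 atTop := by
      refine tendsto_atTop_mono (fun k => ?_) hρ
      have := ha k
      have h4 : (0 : ℝ) ≤ k := Nat.cast_nonneg k
      linarith
    exact tendsto_inv_atTop_zero.comp h3
  obtain ⟨H, hH, hHX, hpr, hfs, hloc⟩ := limit_curves hX (L := 2) two_pos 𝒰 G (fun k : ℕ => (k : ℝ) + 1) hρ
    (Eventually.of_forall fun k => ⟨(hGd k).differentiableOn, fun z hz => ⟨hGX k z, h2 k z hz⟩⟩)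
  have hH0 : ∀ z, H z ≠ 0 := fun z => hX0 _ (hHX z)
  have hdich : ∀ i, (∀ z, q i (H z) = 0) ∨ ∀ z, q i (H z) ≠ 0 := fun i =>
    dichotomy (hq i) (hhom i) 𝒰 hρ (Eventually.of_forall fun k z _ => hFq k i _) hloc
  have hone : fs (H 0) (deriv H 0) = 1 := by
    have h3 := hfs 0
    simp only [hG1] at h3
    exact (tendsto_nhds_unique h3 tendsto_const_nhds)
  have htwo : ∀ z, fs (H z) (deriv H z) ≤ 2 := by
    intro z
    refine le_of_tendsto (hfs z) ?_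
    filter_upwards [hρ.eventually_gt_atTop ‖z‖] with k hk
    exact h2 k z (by rwa [mem_ball_zero_iff])
  have hn0 : ∀ z, n.toFun (H z) (deriv H z) = 0 := by
    intro z
    obtain ⟨r, φ, ψ, hr, hφ, hψ, hψH, hlim⟩ := hloc z
    have hz : z ∈ ball z r := mem_ball_self hr
    have hnb : ball z r ∈ 𝓝 z := isOpen_ball.mem_nhds hz
    have hψX : ∀ w ∈ ball z r, ψ w ∈ X := by
      intro w hw
      obtain ⟨c, hc, h3⟩ := hψH w hw
      rw [h3]
      exact hX.smul_mem _ (hHX w) c hc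
    have hφX : ∀ᶠ k in (𝒰 : Filter ℕ), DifferentiableOn ℂ (φ k) (ball z r) ∧ ∀ w ∈ ball z r, φ k w ∈ X := by
      filter_upwards [hφ] with k hk
      refine ⟨hk.1, fun w hw => ?_⟩
      obtain ⟨c, hc, h3⟩ := hk.2 w hw
      rw [h3]
      exact hX.smul_mem _ (hGX k w) c hc
    have h3 := n.tendsto_curve hr hφX hψ hψX hlim
    have h4 : ∀ᶠ k in (𝒰 : Filter ℕ), 0 ≤ n.toFun (φ k z) (deriv (φ k) z) ∧ n.toFun (φ k z) (deriv (φ k) z) ≤ (a k)⁻¹ := by
      filter_upwards [hφ, hφX] with k hk hk2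
      have h5 : n.toFun (φ k z) (deriv (φ k) z) = n.toFun (G k z) (deriv (G k) z) := by
        refine n.lift_eq hX ⟨hk.1.analyticAt hnb, ?_⟩ ⟨(hGd k).analyticAt z, Eventually.of_forall (hGX k)⟩ ?_
        · filter_upwards [hnb] with w hw using hk2.2 w hw
        · filter_upwards [hnb] with w hw using hk.2 w hw
      rw [h5]
      exact ⟨hGn0 k z, hGn k z⟩
    have h6 : n.toFun (ψ z) (deriv ψ z) = 0 := by
      have h7 : Tendsto (fun k => n.toFun (φ k z) (deriv (φ k) z)) 𝒰 (𝓝 0) :=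
        squeeze_zero' (h4.mono fun k hk => hk.1) (h4.mono fun k hk => hk.2) hainv
      exact tendsto_nhds_unique h3 h7
    rw [← h6]
    symm
    refine n.lift_eq hX ⟨hψ.analyticAt hnb, ?_⟩ ⟨hH.analyticAt z, Eventually.of_forall hHX⟩ ?_
    · filter_upwards [hnb] with w hw using hψX w hw
    · filter_upwards [hnb] with w hw using hψH w hw
  have hK : ∀ z w, ∃ c : ℂ, H (0 + (1 / 2 : ℂ) * z) = c • H (0 + (1 / 2 : ℂ) * w) := by
    have hd : Differentiable ℂ (fun z : ℂ => H (0 + (1 / 2 : ℂ) * z)) := hH.comp ((differentiable_id.const_mul _).const_add _)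
    have hder : ∀ z, deriv (fun ζ : ℂ => H (0 + (1 / 2 : ℂ) * ζ)) z = (1 / 2 : ℂ) • deriv H (0 + (1 / 2 : ℂ) * z) := by
      intro z
      have h3 : HasDerivAt (fun ζ : ℂ => 0 + (1 / 2 : ℂ) * ζ) (1 / 2 : ℂ) z := by
        simpa using ((hasDerivAt_id z).const_mul (1 / 2 : ℂ)).const_add 0
      exact ((hH (0 + (1 / 2 : ℂ) * z)).hasDerivAt.scomp z h3).deriv
    have hle : ∀ z, fs (H (0 + (1 / 2 : ℂ) * z)) (deriv (fun z : ℂ => H (0 + (1 / 2 : ℂ) * z)) z) ≤ 1 := by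
      intro z
      rw [hder z, Pool.Agent.H36.BP.fs_smul_right]
      have h3 := htwo (0 + (1 / 2 : ℂ) * z)
      have h4 : ‖(1 / 2 : ℂ)‖ = 1 / 2 := by norm_num
      rw [h4]
      linarith
    refine hD (fun z : ℂ => H (0 + (1 / 2 : ℂ) * z)) hd (fun z => hHX _) hle (fun i => ?_) (Or.inr fun z => ?_)
    · exact (hdich i).imp (fun h z => h _) fun h z => h _
    · rw [n.comp_affine hH hHX (1 / 2 : ℂ) 0 z, hn0, mul_zero]
  obtain ⟨b, hb⟩ := Pool.Agent.H36.BP.Brody_deriv_line (hH 0) (fun z => by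
    have h3 := hK (2 * z) 0
    simpa using h3)
  have h3 : wd (H 0) (deriv H 0) = 0 := (Pool.Agent.H36.BP.wd_eq_zero (hH0 0)).mpr ⟨b, hb⟩
  unfold fs at hone
  rw [h3, zero_div] at hone
  exact zero_ne_one hone

end Pool.Agent.H22.WL
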